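import Pool.Agent.Q161.EA.Stm2

set_option autoImplicit false

/-! Project EA (helper161), part 2: the three embeddings, jobs KN and ITP. -/

namespace Pool.Agent.Q26.EA

open WeierstrassCurve Polynomial NumberField

open scoped Classical

open Pool.Agent.W262.SH (QB Pt act IsCoc IsCob LocTriv shaCoc cob Sha)
open Pool.Agent.TH841.SH (EvLoc IsX IsR gf)
open Pool.Agent.Q161.EA

section

variable {A B : ℚ} {L : Type} [Field L] [NumberField L] {ϑ : L}

lemma natDegree_cub (A B : ℚ) : (X ^ 3 + C A * X + C B : ℚ[X]).natDegree = 3 := by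
  compute_degree!

lemma monic_cub (A B : ℚ) : (X ^ 3 + C A * X + C B : ℚ[X]).Monic := by
  monicity!

lemma minpoly_eq (h : Cub A B L ϑ) : minpoly ℚ ϑ = X ^ 3 + C A * X + C B := by
  refine (minpoly.eq_of_irreducible_of_monic h.irr ?_ (monic_cub A B)).symm
  have := h.root
  simpa [Algebra.algebraMap_eq_smul_one] using this

/-- an embedding is determined by the image of `ϑ` -/
lemma emb_inj (h : Cub A B L ϑ) (Ω : Type) [Field Ω] [Algebra ℚ Ω] [IsAlgClosed Ω] :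
    Function.Injective (fun e : L →ₐ[ℚ] Ω => e ϑ) := by
  refine (Field.primitive_element_iff_algHom_eq_of_eval' ℚ Ω (fun x => IsAlgClosed.splits _) ϑ).1 ?_
  rw [Field.primitive_element_iff_minpoly_natDegree_eq, minpoly_eq h, natDegree_cub, h.deg]

lemma emb_root (h : Cub A B L ϑ) {Ω : Type} [Field Ω] [Algebra ℚ Ω] (e : L →ₐ[ℚ] Ω) :
    (e ϑ) ^ 3 + algebraMap ℚ Ω A * e ϑ + algebraMap ℚ Ω B = 0 := by
  have h1 := congrArg e h.root
  rw [map_add, map_add, map_mul, map_pow, map_zero] at h1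
  have h2 : ∀ q : ℚ, e ((q : ℚ) : L) = algebraMap ℚ Ω q := by
    intro q
    rw [map_ratCast, eq_ratCast]
  rw [h2, h2] at h1
  exact h1

/-- the three embeddings of `L` -/
lemma three (h : Cub A B L ϑ) (Ω : Type) [Field Ω] [Algebra ℚ Ω] [IsAlgClosed Ω] :
    ∃ e1 e2 e3 : L →ₐ[ℚ] Ω, e1 ≠ e2 ∧ e1 ≠ e3 ∧ e2 ≠ e3 ∧ e1 ϑ ≠ e2 ϑ ∧ e1 ϑ ≠ e3 ϑ ∧ e2 ϑ ≠ e3 ϑ ∧
      (Finset.univ : Finset (L →ₐ[ℚ] Ω)) = {e1, e2, e3} ∧
      IsR ((sh A B).baseChange Ω) (e1 ϑ) (e2 ϑ) (e3 ϑ) := by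
  have hc : (Finset.univ : Finset (L →ₐ[ℚ] Ω)).card = 3 := by
    rw [Finset.card_univ, AlgHom.card, h.deg]
  obtain ⟨e1, e2, e3, h12, h13, h23, hu⟩ := Finset.card_eq_three.1 hc
  have hi := emb_inj h Ω
  have k12 : e1 ϑ ≠ e2 ϑ := fun k => h12 (hi k)
  have k13 : e1 ϑ ≠ e3 ϑ := fun k => h13 (hi k)
  have k23 : e2 ϑ ≠ e3 ϑ := fun k => h23 (hi k)
  refine ⟨e1, e2, e3, h12, h13, h23, k12, k13, k23, hu, ?_⟩
  have r1 := emb_root h e1
  have r2 := emb_root h e2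
  have r3 := emb_root h e3
  generalize e1 ϑ = x at *
  generalize e2 ϑ = y at *
  generalize e3 ϑ = z at *
  have d12 : x ^ 2 + x * y + y ^ 2 + algebraMap ℚ Ω A = 0 := by
    have : (x - y) * (x ^ 2 + x * y + y ^ 2 + algebraMap ℚ Ω A) = 0 := by linear_combination r1 - r2
    exact (mul_eq_zero.1 this).resolve_left (sub_ne_zero.2 k12)
  have d13 : x ^ 2 + x * z + z ^ 2 + algebraMap ℚ Ω A = 0 := by
    have : (x - z) * (x ^ 2 + x * z + z ^ 2 + algebraMap ℚ Ω A) = 0 := by linear_combination r1 - r3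
    exact (mul_eq_zero.1 this).resolve_left (sub_ne_zero.2 k13)
  have d : x + y + z = 0 := by
    have : (y - z) * (x + y + z) = 0 := by linear_combination d12 - d13
    exact (mul_eq_zero.1 this).resolve_left (sub_ne_zero.2 k23)
  constructor
  · show algebraMap ℚ Ω 0 = 0
    rw [map_zero]
  · show algebraMap ℚ Ω 0 = _
    rw [map_zero, d, neg_zero]
  · show algebraMap ℚ Ω 0 = 0
    rw [map_zero]
  · show algebraMap ℚ Ω A = _
    linear_combination d12 - (x + y) * d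
  · show algebraMap ℚ Ω B = _
    linear_combination r1 - x * d12 + x * y * d

/-- exactly one or all of the signs are `1` -/
lemma prod_sg (h : Cub A B L ϑ) (Ω : Type) [Field Ω] [Algebra ℚ Ω] [IsAlgClosed Ω] (h2 : (2 : Ω) ≠ 0)
    (T : Pt (sh A B) Ω) (hT : T + T = 0) :
    ∏ e : L →ₐ[ℚ] Ω, sg ((sh A B).baseChange Ω) (e ϑ) T = 1 := by
  obtain ⟨e1, e2, e3, h12, h13, h23, k12, k13, k23, hu, hR⟩ := three h Ω
  rw [hu, Finset.prod_insert (by simp [h12, h13]), Finset.prod_insert (by simp [h23]),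
    Finset.prod_singleton]
  unfold sg
  rcases hR.tors h2 hT with h0 | ⟨hn, h0⟩ | ⟨hn, h0⟩ | ⟨hn, h0⟩
  · subst h0
    rw [if_pos (Pool.Agent.TH841.SH.isX_zero _), if_pos (Pool.Agent.TH841.SH.isX_zero _),
      if_pos (Pool.Agent.TH841.SH.isX_zero _)]
    ring
  · subst h0
    rw [if_pos (Pool.Agent.TH841.SH.isX_some hn), if_neg (Pool.Agent.TH841.SH.not_isX hn k12),
      if_neg (Pool.Agent.TH841.SH.not_isX hn k13)]
    ring
  · subst h0
    rw [if_pos (Pool.Agent.TH841.SH.isX_some hn), if_neg (Pool.Agent.TH841.SH.not_isX hn k12.symm),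
      if_neg (Pool.Agent.TH841.SH.not_isX hn k23)]
    ring
  · subst h0
    rw [if_pos (Pool.Agent.TH841.SH.isX_some hn), if_neg (Pool.Agent.TH841.SH.not_isX hn k13.symm),
      if_neg (Pool.Agent.TH841.SH.not_isX hn k23.symm)]
    ring

/-- composition with an automorphism permutes the embeddings -/
def permE {K Ω : Type} [Field K] [Field Ω] [Algebra ℚ K] [Algebra K Ω] [Algebra ℚ Ω] [IsScalarTower ℚ K Ω]
    (τ : Ω ≃ₐ[K] Ω) : (L →ₐ[ℚ] Ω) ≃ (L →ₐ[ℚ] Ω) where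
  toFun e := (τ.symm.toAlgHom.restrictScalars ℚ).comp e
  invFun e := (τ.toAlgHom.restrictScalars ℚ).comp e
  left_inv e := by
    ext x
    exact τ.apply_symm_apply _
  right_inv e := by
    ext x
    exact τ.symm_apply_apply _

end

theorem kn : S_KN := by
  intro A B L _ _ ϑ h f γ δ hf hKD
  have h2 : (2 : QB) ≠ 0 := two_ne_zero
  have hg : ∀ σ : QB ≃ₐ[ℚ] QB, σ (∏ e, γ e) = ∏ e, γ e := by
    intro σ
    rw [map_prod]
    have e1 : ∏ e : L →ₐ[ℚ] QB, σ (γ e) = ∏ e : L →ₐ[ℚ] QB, σ (γ (σ.symm.toAlgHom.comp e)) := by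
      refine (Equiv.prod_comp (permE (K := ℚ) (L := L) σ) (fun e => σ (γ e))).symm.trans ?_
      rfl
    rw [e1, Finset.prod_congr rfl (fun e _ => hKD.gal σ e), Finset.prod_mul_distrib,
      prod_sg h QB h2 (f σ) (hf σ), one_mul]
  obtain ⟨q, hq⟩ := Pool.Agent.TH841.SH.fix_mem (∏ e, γ e) hg
  refine ⟨q, ?_, ?_⟩
  · rintro rfl
    rw [map_zero] at hq
    exact Finset.prod_ne_zero_iff.2 (fun e _ => hKD.ne e) hq.symm
  · apply (algebraMap ℚ QB).injective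
    rw [Algebra.norm_eq_prod_embeddings ℚ QB δ, map_pow, hq, ← Finset.prod_pow]
    exact Finset.prod_congr rfl (fun e _ => (hKD.sq e).symm)

theorem itp : S_ITP := by
  intro A B L _ _ ϑ h K Ω _ _ _ _ _ _ _ _ _ hh hinv
  have hi := emb_inj h Ω
  have hi' : Set.InjOn (fun e : L →ₐ[ℚ] Ω => e ϑ) (Finset.univ : Finset (L →ₐ[ℚ] Ω)) := hi.injOn
  obtain ⟨p, hp⟩ : ∃ p, p = Lagrange.interpolate Finset.univ (fun e : L →ₐ[ℚ] Ω => e ϑ) hh := ⟨_, rfl⟩
  have hev : ∀ e : L →ₐ[ℚ] Ω, p.eval (e ϑ) = hh e := fun e => by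
    rw [hp]
    exact Lagrange.eval_interpolate_at_node hh hi' (Finset.mem_univ e)
  have hdeg : p.degree < (Finset.univ : Finset (L →ₐ[ℚ] Ω)).card := by
    rw [hp]
    exact Lagrange.degree_interpolate_lt hh hi'
  have hfix : ∀ τ : Ω ≃ₐ[K] Ω, p.map (τ : Ω →+* Ω) = p := by
    intro τ
    have h1 : p.map (τ : Ω →+* Ω) = Lagrange.interpolate Finset.univ (fun e : L →ₐ[ℚ] Ω => e ϑ) hh := by
      refine Lagrange.eq_interpolate_of_eval_eq hh hi' (lt_of_le_of_lt degree_map_le hdeg) ?_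
      intro e _
      have h2 := hinv τ e
      rw [← hev] at h2
      rw [← h2]
      have h3 : e ϑ = (τ : Ω →+* Ω) (τ.symm (e ϑ)) := (τ.apply_symm_apply _).symm
      show eval (e ϑ) (p.map (τ : Ω →+* Ω)) = (τ : Ω →+* Ω) (p.eval (τ.symm (e ϑ)))
      conv_lhs => rw [h3]
      rw [eval_map_apply]
    rw [h1, ← hp]
  have hl : p ∈ lifts (algebraMap K Ω) := by
    rw [lifts_iff_coeff_lifts]
    intro n
    have h1 : ∀ τ : Ω ≃ₐ[K] Ω, τ (p.coeff n) = p.coeff n := by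
      intro τ
      have h2 := congrArg (fun r => r.coeff n) (hfix τ)
      simpa [coeff_map] using h2
    obtain ⟨y, hy⟩ := Pool.Agent.TH841.SH.fix_mem (p.coeff n) h1
    exact ⟨y, hy⟩
  rw [mem_lifts] at hl
  obtain ⟨g, hg⟩ := hl
  refine ⟨g, fun e => ?_⟩
  rw [← hev e, ← hg, eval_map, aeval_def]

end Pool.Agent.Q26.EA
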