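import Pool.Agent.Q26.EA.Emb

set_option autoImplicit false

/-! Project EA (helper161), part 2: jobs KD and SHA. -/

namespace Pool.Agent.Q26.EA

open WeierstrassCurve Polynomial NumberField

open scoped Classical

open Pool.Agent.W262.SH (QB Pt act IsCoc IsCob LocTriv shaCoc cob Sha)
open Pool.Agent.TH841.SH (EvLoc IsX IsR gf)
open Pool.Agent.Q161.EA
open Pool.Agent.Q51.EL (Setup)
open Pool.Agent.Q161.OS (Cov Tr)

section

variable {A B : ℚ} {L : Type} [Field L] [NumberField L] {ϑ : L}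

lemma three_at (h : Cub A B L ϑ) (Ω : Type) [Field Ω] [Algebra ℚ Ω] [IsAlgClosed Ω] (e : L →ₐ[ℚ] Ω) :
    ∃ b c : Ω, e ϑ ≠ b ∧ e ϑ ≠ c ∧ b ≠ c ∧ IsR ((sh A B).baseChange Ω) (e ϑ) b c := by
  obtain ⟨e1, e2, e3, h12, h13, h23, k12, k13, k23, hu, hR⟩ := three h Ω
  have he : e ∈ ({e1, e2, e3} : Finset (L →ₐ[ℚ] Ω)) := by rw [← hu]; exact Finset.mem_univ e
  rw [Finset.mem_insert, Finset.mem_insert, Finset.mem_singleton] at he
  rcases he with rfl | rfl | rfl
  · exact ⟨_, _, k12, k13, k23, hR⟩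
  · exact ⟨_, _, k12.symm, k23, k13, hR.swap⟩
  · exact ⟨_, _, k13.symm, k23.symm, k12, hR.rot.rot⟩

lemma sg_add (h : Cub A B L ϑ) (Ω : Type) [Field Ω] [Algebra ℚ Ω] [IsAlgClosed Ω] (h2 : (2 : Ω) ≠ 0)
    (e : L →ₐ[ℚ] Ω) {T T' : Pt (sh A B) Ω} (hT : T + T = 0) (hT' : T' + T' = 0) :
    sg ((sh A B).baseChange Ω) (e ϑ) (T + T') =
      sg ((sh A B).baseChange Ω) (e ϑ) T * sg ((sh A B).baseChange Ω) (e ϑ) T' := by
  obtain ⟨b, c, hb, hc, hbc, hR⟩ := three_at h Ω e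
  have h3 := hR.isX_add h2 hb hc hbc hT hT'
  unfold sg
  by_cases h4 : IsX ((sh A B).baseChange Ω) (e ϑ) T <;>
    by_cases h5 : IsX ((sh A B).baseChange Ω) (e ϑ) T'
  · rw [if_pos h4, if_pos h5, if_pos (h3.2 (by simp only [h4, h5])), one_mul]
  · rw [if_pos h4, if_neg h5, if_neg (fun h6 => h5 ((h3.1 h6).1 h4)), one_mul]
  · rw [if_neg h4, if_pos h5, if_neg (fun h6 => h4 ((h3.1 h6).2 h5)), mul_one]
  · rw [if_neg h4, if_neg h5, if_pos (h3.2 (by simp only [h4, h5])), neg_mul_neg, one_mul]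

end

lemma act_isX_gen (W : WeierstrassCurve ℚ) {F L : Type} [Field F] [Field L] [Algebra ℚ F]
    [Algebra ℚ L] (φ : F →ₐ[ℚ] L) (e : F) (T : Pt W F) :
    IsX (W.baseChange L) (φ e) (act W φ T) ↔ IsX (W.baseChange F) e T := by
  rcases T with _ | ⟨x, y, h⟩
  · exact ⟨fun _ => Or.inl rfl, fun _ => Or.inl rfl⟩
  · by_cases hx : x = e
    · subst hx
      refine ⟨fun _ => Pool.Agent.TH841.SH.isX_some h, fun _ => ?_⟩
      rw [Pool.Agent.TH841.SH.act_some]
      exact Pool.Agent.TH841.SH.isX_some _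
    · refine ⟨fun h' => absurd h' ?_, fun h' => absurd h' (Pool.Agent.TH841.SH.not_isX h hx)⟩
      rw [Pool.Agent.TH841.SH.act_some]
      apply Pool.Agent.TH841.SH.not_isX
      intro h2
      exact hx (φ.injective h2)

lemma sg_act (W : WeierstrassCurve ℚ) {F L : Type} [Field F] [Field L] [Algebra ℚ F]
    [Algebra ℚ L] (φ : F →ₐ[ℚ] L) (e : F) (T : Pt W F) :
    sg (W.baseChange L) (φ e) (act W φ T) = φ (sg (W.baseChange F) e T) := by
  unfold sg
  by_cases h : IsX (W.baseChange F) e T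
  · rw [if_pos h, if_pos ((act_isX_gen W φ e T).2 h), map_one]
  · rw [if_neg h, if_neg (fun h' => h ((act_isX_gen W φ e T).1 h')), map_neg, map_one]

lemma sg_cases {K : Type} [Field K] (W : WeierstrassCurve K) (e : K) (T : W.toAffine.Point) :
    sg W e T = 1 ∨ sg W e T = -1 := by
  unfold sg
  split_ifs
  · exact Or.inl rfl
  · exact Or.inr rfl

theorem kd (h90 : S_K90) : S_KD := by
  intro A B L _ _ ϑ h f hf1 hf2 hf3
  have h2 : (2 : QB) ≠ 0 := two_ne_zero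
  obtain ⟨γ, δ, h3, h4, h5⟩ := h90 L (fun σ e => sg ((sh A B).baseChange QB) (e ϑ) (f σ))
    (fun e => hf1.comp (fun T => sg ((sh A B).baseChange QB) (e ϑ) T))
    (fun σ e => sg_cases _ _ _)
    (by
      intro σ τ e
      show sg ((sh A B).baseChange QB) (e ϑ) (f (σ * τ)) = sg ((sh A B).baseChange QB) (e ϑ) (f σ) *
        sg ((sh A B).baseChange QB) (σ.symm (e ϑ)) (f τ)
      have h7 : act (sh A B) σ.toAlgHom (f τ) + act (sh A B) σ.toAlgHom (f τ) = 0 := by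
        rw [← map_add, hf2, map_zero]
      rw [hf3, sg_add h QB h2 e (hf2 σ) h7]
      congr 1
      have h8 := sg_act (sh A B) σ.toAlgHom (σ.symm (e ϑ)) (f τ)
      have h9 : σ.toAlgHom (σ.symm (e ϑ)) = e ϑ := σ.apply_symm_apply _
      rw [h9] at h8
      rw [h8]
      rcases sg_cases ((sh A B).baseChange QB) (σ.symm (e ϑ)) (f τ) with h10 | h10
      · rw [h10, map_one]
      · rw [h10, map_neg, map_one])
  exact ⟨γ, δ, ⟨h3, h4, h5⟩⟩

lemma cub_of_setup {a b : ℤ} {L : Type} [Field L] [NumberField L] {θ : L}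
    (h : Setup (X ^ 3 + C a * X + C b : ℤ[X]) L θ) {D : ℤ} (hD : D ≠ 0) :
    Cub ((a : ℚ) * D ^ 2) ((b : ℚ) * D ^ 3) L ((D : L) * θ) := by
  have hD' : (D : ℚ) ≠ 0 := by exact_mod_cast hD
  have hroot : θ ^ 3 + (a : L) * θ + (b : L) = 0 := by
    have := h.root
    simpa using this
  refine ⟨?_, ?_, ?_⟩
  · have h1 := h.irr
    have e1 : (X ^ 3 + C a * X + C b : ℤ[X]).map (Int.castRingHom ℚ) = X ^ 3 + C (a : ℚ) * X + C (b : ℚ) := by
      simp
    rw [e1] at h1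
    rw [irreducible_iff_roots_eq_zero_of_degree_le_three (by rw [natDegree_cub]; norm_num)
      (by rw [natDegree_cub])] at h1 ⊢
    rw [Multiset.eq_zero_iff_forall_notMem] at h1 ⊢
    intro r hr
    apply h1 (r / D)
    rw [mem_roots (monic_cub _ _).ne_zero, IsRoot.def] at hr ⊢
    simp only [eval_add, eval_pow, eval_X, eval_mul, eval_C] at hr ⊢
    have : (r / D) ^ 3 + (a : ℚ) * (r / D) + b = (r ^ 3 + (a : ℚ) * D ^ 2 * r + (b : ℚ) * D ^ 3) / D ^ 3 := by
      field_simp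
    rw [this, hr, zero_div]
  · push_cast
    linear_combination (D : L) ^ 3 * hroot
  · rw [h.deg]
    compute_degree!

lemma exists_poly {A B : ℚ} {L : Type} [Field L] [NumberField L] {ϑ : L} (h : Cub A B L ϑ) (δ : L) :
    ∃ d : ℚ[X], aeval ϑ d = δ := by
  have h1 : IntermediateField.adjoin ℚ {ϑ} = ⊤ := by
    rw [Field.primitive_element_iff_minpoly_natDegree_eq, minpoly_eq h, natDegree_cub, h.deg]
  have h2 : δ ∈ (IntermediateField.adjoin ℚ {ϑ}).toSubalgebra := by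
    rw [h1]; exact IntermediateField.mem_top
  rw [IntermediateField.adjoin_simple_toSubalgebra_of_isAlgebraic (Algebra.IsAlgebraic.isAlgebraic ϑ),
    Algebra.adjoin_singleton_eq_range_aeval] at h2
  exact h2

end Pool.Agent.Q26.EA
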