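import Pool.Agent.Q161.EA.Stm

set_option autoImplicit false

/-! Project EA (helper161), job SAT: the saturated sets satisfy `P1`, `P2`. -/

namespace Pool.Agent.Q26.EA

open NumberField IsDedekindDomain Finset Pool.Agent.Q51.EL Pool.Agent.Q161.OD Pool.Agent.Q161.EA

section

variable {L : Type} [Field L] [NumberField L]

lemma red_eq {l : ℕ} {p p' : 𝓞 L × ℤ} (h : red L l p = red L l p') :
    (l : 𝓞 L) ∣ p.1 - p'.1 ∧ (l : ℤ) ∣ p.2 - p'.2 := by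
  unfold red at h
  rw [Prod.mk.injEq] at h
  obtain ⟨h1, h2⟩ := h
  constructor
  · rw [Ideal.Quotient.eq, Ideal.mem_span_singleton] at h1
    exact h1
  · rw [← sub_eq_zero, ← Int.cast_sub] at h2
    exact (ZMod.intCast_zmod_eq_zero_iff_dvd _ _).1 h2 

lemma mem_v {l : ℕ} {v : HeightOneSpectrum (𝓞 L)} (hv : Abv v l) {x : 𝓞 L} (h : (l : 𝓞 L) ∣ x) :
    x ∈ v.asIdeal := Ideal.mem_of_dvd _ h hv

lemma dvd_cast {l : ℕ} {a : ℤ} (h : (l : ℤ) ∣ a) : (l : 𝓞 L) ∣ (a : 𝓞 L) := by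
  obtain ⟨b, rfl⟩ := h
  exact ⟨(b : 𝓞 L), by push_cast; ring⟩

lemma un_of_red {l : ℕ} {p p' : 𝓞 L × ℤ} (h : red L l p = red L l p') {v : HeightOneSpectrum (𝓞 L)}
    (hv : Abv v l) : p.1 ∈ v.asIdeal ↔ p'.1 ∈ v.asIdeal := by
  have h1 := mem_v hv (red_eq h).1
  constructor
  · intro h2
    have := v.asIdeal.sub_mem h2 h1
    simpa using this
  · intro h2
    have := v.asIdeal.add_mem h1 h2
    simpa using this

lemma dvd_of_red {l : ℕ} {p p' : 𝓞 L × ℤ} (h : red L l p = red L l p') :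
    (l : ℤ) ∣ p.2 ↔ (l : ℤ) ∣ p'.2 := by
  have h1 := (red_eq h).2
  constructor
  · intro h2
    have := dvd_sub h2 h1
    simpa using this
  · intro h2
    have := dvd_add h1 h2
    simpa using this

/-- the congruence `c p q ≡ g²` depends only on `p` modulo `l` -/
lemma sq_of_red {l : ℕ} {p p' : 𝓞 L × ℤ} (h : red L l p = red L l p') {v : HeightOneSpectrum (𝓞 L)}
    (hv : Abv v l) (c y g : 𝓞 L) (h2 : c * p.1 * y - g ^ 2 ∈ v.asIdeal) :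
    c * p'.1 * y - g ^ 2 ∈ v.asIdeal := by
  have h1 := mem_v hv (red_eq h).1
  have h3 := v.asIdeal.sub_mem h2 (v.asIdeal.mul_mem_left (c * y) h1)
  have h4 : c * p.1 * y - g ^ 2 - c * y * (p.1 - p'.1) = c * p'.1 * y - g ^ 2 := by ring
  rwa [h4] at h3

lemma key2 {l : ℕ} {T : Set (𝓞 L × ℤ)} (h2 : P2 l T) {p : 𝓞 L × ℤ} (hp : p ∈ Sat l T)
    (hl : (l : ℤ) ∣ p.2) : ∃ q ∈ T, (l : ℤ) ∣ q.2 ∧ ∃ c : ℤ, ¬ (l : ℤ) ∣ c ∧
      ∀ v : HeightOneSpectrum (𝓞 L), Abv v l → ∃ g : 𝓞 L, (c : 𝓞 L) * p.1 * q.1 - g ^ 2 ∈ v.asIdeal := by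
  rcases hp with hp | hp
  · obtain ⟨-, hp⟩ := hp
    rcases hp with hp | hp
    · exact absurd hl hp
    · exact hp
  · obtain ⟨q, hq, hr⟩ := hp
    have hlq : (l : ℤ) ∣ q.2 := (dvd_of_red hr).2 hl
    obtain ⟨c, hc, hv⟩ := h2.2 q hq q hq hlq hlq
    refine ⟨q, hq, hlq, c, hc, fun v hvl => ?_⟩
    obtain ⟨g, hg⟩ := hv v hvl
    exact ⟨g, sq_of_red hr hvl _ _ _ hg⟩

lemma nonunit {l : ℕ} {T : Set (𝓞 L × ℤ)} {p : 𝓞 L × ℤ} (hp : p ∈ Sat l T)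
    {v : HeightOneSpectrum (𝓞 L)} (hv : Abv v l) (h : p.1 ∈ v.asIdeal) : ∃ q ∈ T, red L l q = red L l p := by
  rcases hp with hp | hp
  · exact absurd h (hp.1 v hv)
  · exact hp

lemma unit_of_dvd {l : ℕ} {T : Set (𝓞 L × ℤ)} (h1 : P1 l T) {q : 𝓞 L × ℤ} (hq : q ∈ T)
    (hl : (l : ℤ) ∣ q.2) : Un l q.1 := by
  rcases h1 q hq with h | h
  · exact absurd hl h.1
  · exact h.2

lemma exists_inv (v : HeightOneSpectrum (𝓞 L)) {x : 𝓞 L} (hx : x ∉ v.asIdeal) :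
    ∃ y : 𝓞 L, y * x - 1 ∈ v.asIdeal := by
  obtain ⟨y, i, hi, h⟩ := v.isMaximal.exists_inv hx
  refine ⟨y, ?_⟩
  have : y * x - 1 = - i := by rw [← h]; ring
  rw [this]
  exact v.asIdeal.neg_mem hi

end

theorem sat : S_SAT := by
  intro L _ _ l T hl h1 h2
  refine ⟨?_, ⟨?_, ?_⟩, ?_, ?_⟩
  · -- P1
    intro p hp
    rcases hp with hp | hp
    · by_cases hd : (l : ℤ) ∣ p.2
      · exact Or.inr ⟨hd, hp.1⟩
      · exact Or.inl ⟨hd, Or.inl hp.1⟩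
    · obtain ⟨q, hq, hr⟩ := hp
      rcases h1 q hq with ⟨h3, h4⟩ | ⟨h3, h4⟩
      · refine Or.inl ⟨fun h => h3 ((dvd_of_red hr).2 h), ?_⟩
        rcases h4 with h4 | ⟨v0, hv0, hn, hm, h4⟩
        · exact Or.inl fun v hv h => h4 v hv ((un_of_red hr hv).2 h)
        · exact Or.inr ⟨v0, hv0, hn, (un_of_red hr hv0).1 hm, fun v hv hne h => h4 v hv hne ((un_of_red hr hv).2 h)⟩
      · exact Or.inr ⟨(dvd_of_red hr).1 h3, fun v hv h => h4 v hv ((un_of_red hr hv).2 h)⟩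
  · -- P2, first part
    intro p hp p' hp' v0 hv0 hm hm' v hv hne
    obtain ⟨q, hq, hr⟩ := nonunit hp hv0 hm
    obtain ⟨q', hq', hr'⟩ := nonunit hp' hv0 hm'
    obtain ⟨g, hg⟩ := h2.1 q hq q' hq' v0 hv0 ((un_of_red hr hv0).2 hm) ((un_of_red hr' hv0).2 hm') v hv hne
    refine ⟨g, ?_⟩
    have e1 := mem_v hv (red_eq hr).1
    have e2 := mem_v hv (red_eq hr').1
    have e3 := mem_v hv (dvd_cast (L := L) (red_eq hr).2)
    have e4 := mem_v hv (dvd_cast (L := L) (red_eq hr').2)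
    have e5 : ((p.2 * p'.2 : ℤ) : 𝓞 L) * p.1 * p'.1 - g ^ 2 =
        ((q.2 * q'.2 : ℤ) : 𝓞 L) * q.1 * q'.1 - g ^ 2
        - ((q'.2 : 𝓞 L) * q.1 * q'.1 * ((q.2 - p.2 : ℤ) : 𝓞 L)
          + (p.2 : 𝓞 L) * q.1 * q'.1 * ((q'.2 - p'.2 : ℤ) : 𝓞 L)
          + (p.2 : 𝓞 L) * (p'.2 : 𝓞 L) * q'.1 * (q.1 - p.1)
          + (p.2 : 𝓞 L) * (p'.2 : 𝓞 L) * p.1 * (q'.1 - p'.1)) := by
      push_cast; ring
    rw [e5]
    refine v.asIdeal.sub_mem hg ?_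
    exact v.asIdeal.add_mem (v.asIdeal.add_mem (v.asIdeal.add_mem (v.asIdeal.mul_mem_left _ e3)
      (v.asIdeal.mul_mem_left _ e4)) (v.asIdeal.mul_mem_left _ e1)) (v.asIdeal.mul_mem_left _ e2)
  · -- P2, second part
    intro p hp p' hp' hd hd'
    obtain ⟨q, hq, hlq, c, hc, hv⟩ := key2 h2 hp hd
    obtain ⟨q', hq', hlq', c', hc', hv'⟩ := key2 h2 hp' hd'
    obtain ⟨c2, hc2, hv2⟩ := h2.2 q hq q' hq' hlq hlq'
    have hlp : Prime (l : ℤ) := Nat.prime_iff_prime_int.1 hl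
    refine ⟨c * c' * c2, ?_, fun v hvl => ?_⟩
    · intro h
      rcases hlp.dvd_or_dvd h with h | h
      · rcases hlp.dvd_or_dvd h with h | h
        · exact hc h
        · exact hc' h
      · exact hc2 h
    · obtain ⟨g, hg⟩ := hv v hvl
      obtain ⟨g', hg'⟩ := hv' v hvl
      obtain ⟨g2, hg2⟩ := hv2 v hvl
      obtain ⟨y, hy⟩ := exists_inv v (unit_of_dvd h1 hq hlq v hvl)
      obtain ⟨y', hy'⟩ := exists_inv v (unit_of_dvd h1 hq' hlq' v hvl)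
      refine ⟨g * g' * g2 * y * y', ?_⟩
      rw [← Ideal.Quotient.eq_zero_iff_mem] at hg hg' hg2 hy hy' ⊢
      simp only [map_sub, map_mul, map_pow, map_one, Int.cast_mul] at hg hg' hg2 hy hy' ⊢
      generalize (Ideal.Quotient.mk v.asIdeal) (c : 𝓞 L) = C at *
      generalize (Ideal.Quotient.mk v.asIdeal) (c' : 𝓞 L) = C' at *
      generalize (Ideal.Quotient.mk v.asIdeal) (c2 : 𝓞 L) = C2 at *
      generalize (Ideal.Quotient.mk v.asIdeal) g = G at *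
      generalize (Ideal.Quotient.mk v.asIdeal) g' = G' at *
      generalize (Ideal.Quotient.mk v.asIdeal) g2 = G2 at *
      generalize (Ideal.Quotient.mk v.asIdeal) y = Y at *
      generalize (Ideal.Quotient.mk v.asIdeal) y' = Y' at *
      generalize (Ideal.Quotient.mk v.asIdeal) p.1 = A at *
      generalize (Ideal.Quotient.mk v.asIdeal) p'.1 = A' at *
      generalize (Ideal.Quotient.mk v.asIdeal) q.1 = Q at *
      generalize (Ideal.Quotient.mk v.asIdeal) q'.1 = Q' at *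
      have e1 : G ^ 2 = C * A * Q := (sub_eq_zero.1 hg).symm
      have e2 : G' ^ 2 = C' * A' * Q' := (sub_eq_zero.1 hg').symm
      have e3 : G2 ^ 2 = C2 * Q * Q' := (sub_eq_zero.1 hg2).symm
      have e4 : Y * Q = 1 := sub_eq_zero.1 hy
      have e5 : Y' * Q' = 1 := sub_eq_zero.1 hy'
      have e6 : C * C' * C2 * A * A' - (G * G' * G2 * Y * Y') ^ 2 =
          C * C' * C2 * A * A' - G ^ 2 * G' ^ 2 * G2 ^ 2 * Y ^ 2 * Y' ^ 2 := by ring
      rw [e6, e1, e2, e3]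
      have e7 : C * A * Q * (C' * A' * Q') * (C2 * Q * Q') * Y ^ 2 * Y' ^ 2 =
          C * C' * C2 * A * A' * (Y * Q) ^ 2 * (Y' * Q') ^ 2 := by ring
      rw [e7, e4, e5]
      ring
  · -- T ⊆ Sat
    intro p hp
    exact Or.inr ⟨p, hp, rfl⟩
  · intro p p' hr hp
    rcases hp with hp | hp
    · left
      refine ⟨fun v hv h => hp.1 v hv ((un_of_red hr hv).2 h), ?_⟩
      rcases hp.2 with h | ⟨q, hq, hlq, c, hc, hv⟩
      · exact Or.inl fun h' => h ((dvd_of_red hr).2 h')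
      · refine Or.inr ⟨q, hq, hlq, c, hc, fun v hvl => ?_⟩
        obtain ⟨g, hg⟩ := hv v hvl
        exact ⟨g, sq_of_red hr hvl _ _ _ hg⟩
    · obtain ⟨q, hq, h⟩ := hp
      exact Or.inr ⟨q, hq, h.trans hr⟩

end Pool.Agent.Q26.EA
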