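import Pool.Agent.Q26.EA.Kd

set_option autoImplicit false

/-! Project EA (helper161), part 2: job SHA. -/

namespace Pool.Agent.Q26.EA

open WeierstrassCurve Polynomial NumberField

open scoped Classical

open Pool.Agent.W262.SH (QB Pt act IsCoc IsCob LocTriv shaCoc cob Sha)
open Pool.Agent.TH841.SH (EvLoc IsX IsR gf)
open Pool.Agent.Q161.EA
open Pool.Agent.Q51.EL (Setup)
open Pool.Agent.Q161.OS (Cov Tr)

theorem sha (hKD : S_KD) (hKN : S_KN) (hKI : S_KI) (hKL : S_KL) : S_SHA := by
  intro a b L _ _ θ hS D hD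
  have hDQ : (D : ℚ) ≠ 0 := by exact_mod_cast hD
  have hDL : (D : L) ≠ 0 := by exact_mod_cast hD
  have hC := cub_of_setup hS hD
  -- data
  have hex : ∀ x : Sel2 (tw a b D), ∃ (γ : (L →ₐ[ℚ] QB) → QB) (δ : L),
      KD (tw a b D) ((D : L) * θ) (Quotient.out x : selC (tw a b D)).1 γ δ := by
    intro x
    exact hKD _ _ L _ hC _ (Quotient.out x).2.1 (Quotient.out x).2.2.1 (Quotient.out x).2.2.2.1
  choose γ δ hγ using hex
  have hloc : ∀ x : Sel2 (tw a b D), EvLoc (tw a b D) (Quotient.out x : selC (tw a b D)).1 :=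
    fun x => (Quotient.out x).2.2.2.2
  have htor : ∀ (x : Sel2 (tw a b D)) (σ : QB ≃ₐ[ℚ] QB),
      (Quotient.out x : selC (tw a b D)).1 σ + (Quotient.out x : selC (tw a b D)).1 σ = 0 :=
    fun x => (Quotient.out x).2.2.1
  refine ⟨δ, fun x => ⟨?_, ?_⟩, fun x y hxy => ?_⟩
  · intro h0
    obtain ⟨e, -, -, -⟩ := three hC QB
    have h1 := (hγ x).sq e
    rw [h0, map_zero] at h1
    exact (hγ x).ne e (pow_eq_zero_iff two_ne_zero |>.1 h1)
  · obtain ⟨d', hd'⟩ := exists_poly hC (δ x)
    obtain ⟨q, hq0, hq⟩ := hKN _ _ L _ hC _ _ _ (htor x) (hγ x)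
    refine ⟨d'.comp (C (D : ℚ) * X), ?_, ?_⟩
    · rw [aeval_comp]
      simpa using hd'
    · intro p hp
      obtain ⟨X0, w, g, hw, hdiv⟩ := hKL _ _ L _ hC _ _ _ (htor x) (hγ x) p ((hloc x).1 p) d' hd'
      have hDp : (D : ℚ_[p]) ≠ 0 := by exact_mod_cast hD
      have hqp : (q : ℚ_[p]) ≠ 0 := by exact_mod_cast hq0
      refine ⟨X0, w * D, w / q, g.comp (C (D : ℚ_[p]) * X), ?_, ?_, ?_⟩
      · rcases hw with h | ⟨_, h⟩
        · right; rw [h, one_mul]; exact hDp
        · left; rw [h]; exact one_ne_zero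
      · have h1 := map_dvd (compRingHom (C (D : ℚ_[p]) * X)) hdiv
        simp only [coe_compRingHom_apply] at h1
        have e1 : ((X ^ 3 + C ((a : ℚ) * D ^ 2) * X + C ((b : ℚ) * D ^ 3) : ℚ[X]).map
            (Rat.castHom ℚ_[p])).comp (C (D : ℚ_[p]) * X) =
            C ((D : ℚ_[p]) ^ 3) * (X ^ 3 + C a * X + C b : ℤ[X]).map (Int.castRingHom ℚ_[p]) := by
          simp only [Polynomial.map_add, Polynomial.map_mul, Polynomial.map_pow, map_X, map_C, add_comp,
            mul_comp, pow_comp, X_comp, C_comp]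
          simp only [map_mul, map_pow, Rat.coe_castHom, Int.coe_castRingHom, Rat.cast_mul,
            Rat.cast_pow, Rat.cast_intCast]
          ring
        rw [e1] at h1
        have h2 := (Dvd.intro_left _ rfl).trans h1
        refine h2.trans (dvd_of_eq ?_)
        simp only [sub_comp, mul_comp, pow_comp, C_comp, X_comp, Polynomial.map_comp,
          Polynomial.map_mul, map_C, map_X]
        simp only [map_mul, Rat.coe_castHom, Rat.cast_intCast]
        ring
      · have hn : Algebra.norm ℚ (aeval θ (d'.comp (C (D : ℚ) * X))) = q ^ 2 := by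
          rw [aeval_comp]
          simp only [map_mul, aeval_C, aeval_X, algebraMap_int_eq, eq_intCast, map_intCast]
          rw [hd', hq]
        have hlc : (X ^ 3 + C a * X + C b : ℤ[X]).leadingCoeff = 1 := by
          have : (X ^ 3 + C a * X + C b : ℤ[X]).Monic := by monicity!
          exact this
        rw [hn, hlc, one_mul]
        push_cast
        rcases hw with h | ⟨h, _⟩
        · rw [h]; field_simp
        · rw [h]; simp
  · obtain ⟨T, hT, h1⟩ := hKI _ _ L _ hC _ _ _ _ _ _ (htor y) (htor x) (hγ y) (hγ x) (by rwa [mul_comm])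
    have h2 : (QuotientAddGroup.mk (Quotient.out x : selC (tw a b D)) : Sel2 (tw a b D)) =
        QuotientAddGroup.mk (Quotient.out y : selC (tw a b D)) := by
      rw [QuotientAddGroup.eq, AddSubgroup.mem_addSubgroupOf]
      refine ⟨T, hT, fun σ => ?_⟩
      have h5 : - (Quotient.out x : selC (tw a b D)).1 σ + (Quotient.out y : selC (tw a b D)).1 σ =
          (Quotient.out y : selC (tw a b D)).1 σ - (Quotient.out x : selC (tw a b D)).1 σ := by abel
      exact h5.trans (h1 σ)
    have h3 : (QuotientAddGroup.mk (Quotient.out x : selC (tw a b D)) : Sel2 (tw a b D)) = x :=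
      Quotient.out_eq x
    have h4 : (QuotientAddGroup.mk (Quotient.out y : selC (tw a b D)) : Sel2 (tw a b D)) = y :=
      Quotient.out_eq y
    rw [← h3, ← h4, h2]

end Pool.Agent.Q26.EA
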